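import Mathlib
import Pool.Agent.H21.VNumDef2

namespace Pool.Agent.Results.MP_ad771b_al.Slope

open MvPolynomial Pool.Agent.H21.VNum Filter Topology

attribute [local instance] MvPolynomial.gradedAlgebra

variable (K : Type) [Field K]

noncomputable def I : Ideal (MvPolynomial (Fin 3) K) :=
  Ideal.span {X 0 ^ 2, X 0 * X 2 ^ 2, X 1 * X 2 ^ 4}

noncomputable def P : Ideal (MvPolynomial (Fin 3) K) := Ideal.span (X '' {0, 1})

noncomputable def o (w : Fin 3 → ℕ) (f : MvPolynomial (Fin 3) K) : ℕ∞ :=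
  MvPowerSeries.weightedOrder w (f : MvPowerSeries (Fin 3) K)

variable {K}

theorem o_mul (w f g) : o K w (f * g) = o K w f + o K w g := by
  rw [o, coe_mul, MvPowerSeries.weightedOrder_mul]; rfl

theorem le_o (w : Fin 3 → ℕ) (n : ℕ) (f : MvPolynomial (Fin 3) K) :
    (n : ℕ∞) ≤ o K w f ↔ ∀ m ∈ f.support, n ≤ m 0 * w 0 + m 1 * w 1 + m 2 * w 2 := by
  have e : ∀ m : Fin 3 →₀ ℕ, Finsupp.weight w m = m 0 * w 0 + m 1 * w 1 + m 2 * w 2 := fun m => by
    simp [Finsupp.weight_eq_sum, Fin.sum_univ_three]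
  refine ⟨fun h m hm => ?_, fun h => MvPowerSeries.nat_le_weightedOrder w fun d hd => ?_⟩
  · have := h.trans (MvPowerSeries.weightedOrder_le w (d := m) (by simpa using hm))
    rw [e] at this; exact_mod_cast this
  · by_contra hc
    have := h d (by simpa using hc)
    rw [e] at hd; omega

theorem mem_P (f : MvPolynomial (Fin 3) K) : f ∈ P K ↔ ((1 : ℕ) : ℕ∞) ≤ o K ![1, 1, 0] f := by
  rw [P, mem_ideal_span_X_image, le_o]
  refine forall₂_congr fun m _ => ?_
  simp; omega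

theorem P_prime : (P K).IsPrime := by
  refine ⟨fun h => ?_, fun {f g} h => ?_⟩
  · have := (le_o ..).1 ((mem_P 1).1 (h ▸ Submodule.mem_top)) 0 (by simp)
    simp at this
  · simp only [mem_P, o_mul, Nat.cast_one, Order.one_le_iff_ne_zero, ne_eq, add_eq_zero] at *
    tauto

theorem X_eq (a b c : ℕ) : (X 0 ^ a * X 1 ^ b * X 2 ^ c : MvPolynomial (Fin 3) K) =
    monomial (Finsupp.single 0 a + Finsupp.single 1 b + Finsupp.single 2 c) 1 := by
  simp only [X_pow_eq_monomial, monomial_mul, mul_one]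

theorem o_X (w : Fin 3 → ℕ) (a b c : ℕ) : o K w (X 0 ^ a * X 1 ^ b * X 2 ^ c) =
    (a * w 0 + b * w 1 + c * w 2 : ℕ) := by
  rw [X_eq, o, coe_monomial, MvPowerSeries.weightedOrder_monomial_of_ne_zero w one_ne_zero]
  simp [Finsupp.weight_single]

theorem mem_pow (k : ℕ) (f : MvPolynomial (Fin 3) K) :
    f ∈ I K ^ k ↔ (k : ℕ∞) ≤ o K ![1, 1, 0] f ∧ ((4 * k : ℕ) : ℕ∞) ≤ o K ![2, 0, 1] f := by
  constructor
  · have add : ∀ (w) (n : ℕ∞) (f g : MvPolynomial (Fin 3) K), n ≤ o K w f → n ≤ o K w g →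
        n ≤ o K w (f + g) := fun w n f g h1 h2 => by
      rw [o, coe_add]; exact (le_min h1 h2).trans (MvPowerSeries.min_weightedOrder_le_add w)
    have one : ∀ f ∈ I K, 1 ≤ o K ![1, 1, 0] f ∧ 4 ≤ o K ![2, 0, 1] f := fun f hf => by
      induction hf using Submodule.span_induction with
      | mem x hx =>
        have h1 := fun w => o_X (K := K) w 2 0 0
        have h2 := fun w => o_X (K := K) w 1 0 2
        have h3 := fun w => o_X (K := K) w 0 1 4
        simp only [pow_zero, mul_one, pow_one, one_mul] at h1 h2 h3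
        rcases hx with rfl | rfl | rfl <;> simp [h1, h2, h3] <;> norm_num
      | zero => simp [o]
      | add x y _ _ h1 h2 => exact ⟨add _ _ _ _ h1.1 h2.1, add _ _ _ _ h1.2 h2.2⟩
      | smul a x _ h =>
        rw [smul_eq_mul, o_mul, o_mul]; exact ⟨h.1.trans le_add_self, h.2.trans le_add_self⟩
    induction k generalizing f with
    | zero => simp
    | succ k ih =>
      rw [pow_succ]
      refine fun h => Submodule.mul_induction_on h (fun x hx y hy => ?_) fun x y h1 h2 =>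
        ⟨add _ _ _ _ h1.1 h2.1, add _ _ _ _ h1.2 h2.2⟩
      rw [o_mul, o_mul, mul_add]; push_cast
      exact ⟨add_le_add (ih x hx).1 (one y hy).1,
        add_le_add (by simpa using (ih x hx).2) (one y hy).2⟩
  · rw [le_o, le_o]
    rintro ⟨h1, h2⟩
    rw [f.as_sum]
    refine Ideal.sum_mem _ fun m hm => ?_
    have h1 := h1 m hm
    have h2 := h2 m hm
    simp only [Matrix.cons_val_zero, Matrix.cons_val_one, Matrix.cons_val] at h1 h2
    obtain ⟨i, j, l, rfl, a, b, c⟩ : ∃ i j l, i + j + l = k ∧ 2 * i + j ≤ m 0 ∧ l ≤ m 1 ∧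
        2 * j + 4 * l ≤ m 2 := ⟨min k (m 0 - k), min (m 0) (2 * k - m 0), k - m 0, by omega⟩
    have : (X 0 ^ 2) ^ i * (X 0 * X 2 ^ 2) ^ j * (X 1 * X 2 ^ 4) ^ l ∈ I K ^ (i + j + l) := by
      rw [pow_add, pow_add]
      exact Ideal.mul_mem_mul (Ideal.mul_mem_mul (Ideal.pow_mem_pow (Ideal.subset_span (by simp)) _)
        (Ideal.pow_mem_pow (Ideal.subset_span (by simp)) _))
        (Ideal.pow_mem_pow (Ideal.subset_span (by simp)) _)
    refine Ideal.mem_of_dvd _ ?_ this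
    rw [show (X 0 ^ 2) ^ i * (X 0 * X 2 ^ 2) ^ j * (X 1 * X 2 ^ 4) ^ l =
      (X 0 ^ (2 * i + j) * X 1 ^ l * X 2 ^ (2 * j + 4 * l) : MvPolynomial (Fin 3) K) by ring, X_eq,
      monomial_dvd_monomial]
    refine ⟨Or.inr fun t => ?_, one_dvd _⟩
    fin_cases t <;> simpa

theorem colon_eq (k : ℕ) : Submodule.colon (I K ^ (k + 1)) {X 0 ^ k * X 1 ^ 0 * X 2 ^ (2 * k + 4)} = P K := by
  ext u
  rw [Submodule.mem_colon_singleton, smul_eq_mul, mem_pow, mem_P, o_mul _ u, o_mul _ u, o_X, o_X]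
  simp only [Matrix.cons_val_zero, Matrix.cons_val_one, Matrix.cons_val, mul_one, mul_zero, add_zero]
  rw [and_iff_left (le_add_left (by norm_cast; omega)), add_comm k, Nat.cast_add,
    ENat.add_le_add_iff_right (by simp)]

theorem y_mem {k : ℕ} {f : MvPolynomial (Fin 3) K} (h : P K ≤ Submodule.colon (I K ^ k) {f}) :
    ((4 * k : ℕ) : ℕ∞) ≤ o K ![2, 0, 1] f := by
  have := h (Ideal.subset_span ⟨1, by simp, rfl⟩)
  have e := o_X (K := K) ![2, 0, 1] 0 1 0
  rw [Submodule.mem_colon_singleton, smul_eq_mul, mem_pow, o_mul ![2, 0, 1]] at this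
  simp only [pow_zero, pow_one, one_mul, mul_one] at e
  simpa [e] using this.2

theorem vloc (k : ℕ) : vLoc (P K) (I K ^ (k + 1)) = 3 * k + 4 := by
  have h : (X 0 ^ k * X 1 ^ 0 * X 2 ^ (2 * k + 4) : MvPolynomial (Fin 3) K).IsHomogeneous
      (3 * k + 4) := by
    have := (((isHomogeneous_X K (0 : Fin 3)).pow k).mul ((isHomogeneous_X K 1).pow 0)).mul
      ((isHomogeneous_X K 2).pow (2 * k + 4))
    rwa [show 1 * k + 1 * 0 + 1 * (2 * k + 4) = 3 * k + 4 by ring] at this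
  refine IsLeast.csInf_eq ⟨⟨_, h, colon_eq k⟩, ?_⟩
  rintro d ⟨f, hf, hc⟩
  have h1 := y_mem hc.ge
  have h2 : ¬ ((k + 1 : ℕ) : ℕ∞) ≤ o K ![1, 1, 0] f := fun h => P_prime.ne_top (by
    rw [← hc, Ideal.eq_top_iff_one]; simpa using (mem_pow _ f).2 ⟨h, h1⟩)
  simp only [le_o, not_forall] at h1 h2
  obtain ⟨m, hm, h2⟩ := h2
  have h1 := h1 m hm
  have : Finsupp.weight (fun _ => 1) m = d := hf (mem_support_iff.1 hm)
  rw [← Finsupp.degree_eq_weight_one, Finsupp.degree_eq_sum, Fin.sum_univ_three] at this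
  simp only [Matrix.cons_val_zero, Matrix.cons_val_one, Matrix.cons_val] at h1 h2
  omega

theorem result (K : Type) [Field K] :
    ∃ I p : Ideal (MvPolynomial (Fin 3) K), I.IsHomogeneous (homogeneousSubmodule (Fin 3) K) ∧
      I ≠ ⊥ ∧ I ≠ ⊤ ∧ Maximal (· ∈ AssInf I) p ∧ alpha I = 2 ∧
      Tendsto (fun k : ℕ => (vLoc p (I ^ k) : ℝ) / k) atTop (𝓝 3) := by
  have g : (X 0 ^ 2 : MvPolynomial (Fin 3) K) ∈ I K := Ideal.subset_span (by simp)
  have lo : ∀ f ∈ I K, ∀ m ∈ f.support, 2 ≤ m 0 + m 1 + m 2 := fun f hf m hm => by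
    have := (le_o ..).1 ((mem_pow 1 f).1 (by rwa [pow_one])).2 m hm
    simp only [Matrix.cons_val_zero, Matrix.cons_val_one, Matrix.cons_val] at this
    omega
  refine ⟨I K, P K, ?_, fun h => ?_, fun h => ?_, ⟨?_, fun q hq hle u hu => ?_⟩, ?_, ?_⟩
  · refine Ideal.homogeneous_span _ _ fun x hx => ?_
    rcases hx with rfl | rfl | rfl
    · exact ⟨_, (isHomogeneous_X K 0).pow 2⟩
    · exact ⟨_, (isHomogeneous_X K 0).mul ((isHomogeneous_X K 2).pow 2)⟩
    · exact ⟨_, (isHomogeneous_X K 1).mul ((isHomogeneous_X K 2).pow 4)⟩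
  · rw [h, Ideal.mem_bot] at g
    exact pow_ne_zero 2 (X_ne_zero 0) g
  · simpa using lo 1 (h ▸ Submodule.mem_top) 0 (by simp)
  · refine (Set.Ici_infinite 1).mono fun k hk => ?_
    obtain ⟨k, rfl⟩ := Nat.exists_eq_add_of_le' hk
    exact ⟨P_prime, _, colon_eq k⟩
  · obtain ⟨k, hq, f, rfl⟩ := Set.Infinite.nonempty hq
    have h1 := y_mem hle
    have h2 : ¬ (k : ℕ∞) ≤ o K ![1, 1, 0] f := fun h => hq.ne_top (by
      rw [Ideal.eq_top_iff_one]; simpa using (mem_pow _ f).2 ⟨h, h1⟩)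
    rw [Submodule.mem_colon_singleton, smul_eq_mul, mem_pow, o_mul] at hu
    rw [mem_P, Nat.cast_one, Order.one_le_iff_ne_zero]
    exact fun h => h2 (by simpa [h] using hu.1)
  · refine IsLeast.csInf_eq ⟨⟨_, g, pow_ne_zero 2 (X_ne_zero 0), (isHomogeneous_X K 0).pow 2⟩, ?_⟩
    rintro d ⟨f, hf, h0, hd⟩
    obtain ⟨m, hm⟩ := support_nonempty.2 h0
    have : Finsupp.weight (fun _ => 1) m = d := hd (mem_support_iff.1 hm)
    rw [← Finsupp.degree_eq_weight_one, Finsupp.degree_eq_sum, Fin.sum_univ_three] at this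
    exact this ▸ lo f hf m hm
  · have := (tendsto_const_nhds (x := (3 : ℝ))).add (tendsto_one_div_atTop_nhds_zero_nat (𝕜 := ℝ))
    rw [add_zero] at this
    refine this.congr' (eventually_atTop.2 ⟨1, fun k hk => ?_⟩)
    obtain ⟨k, rfl⟩ := Nat.exists_eq_add_of_le' hk
    simp only [vloc]; push_cast; field_simp; ring

end Pool.Agent.Results.MP_ad771b_al.Slope
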